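import Mathlib
import Pool.Agent.Q182.AMDefs
import Pool.Agent.Q182.AMExample2

/-!
# Almost minimality is not inherited by closed subgroups
-/

namespace Pool.Agent.Results.MP_e403d1_gt.ClosedSubgroup

open Q182

/-- There are an almost minimal abelian topological group `G` and a closed subgroup `H` of `G` that
is not almost minimal. -/
theorem result :
    ∃ (G : Type) (_ : AddCommGroup G) (_ : TopologicalSpace G),
      IsTopologicalAddGroup G ∧ IsAlmostMinimal G ∧
        ∃ H : AddSubgroup G, IsClosed (H : Set G) ∧ ¬ IsAlmostMinimal ↥H :=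
  ⟨↥AM.G, inferInstance, inferInstance, inferInstance, AM.almostMinimal_G, AM.H, AM.isClosed_H,
    AM.not_almostMinimal_H⟩

end Pool.Agent.Results.MP_e403d1_gt.ClosedSubgroup
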